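import Pool.Agent.Helper97.FS.Stmts

/-!
# MP_c726b9_an, module E3: large sieve, strip sums converge in `L²(β)`
-/

set_option autoImplicit false

namespace Pool.Agent.Helper97.FS

open Finset MeasureTheory Filter Topology UnitAddTorus
open scoped ComplexConjugate ENNReal

/-- the exponentials are square integrable -/
theorem E3_mem (n : ℕ) (β : Measure (UnitAddTorus (Fin n))) [IsProbabilityMeasure β]
    (m : Fin n → ℤ) : MemLp (fun x => mFourier m x) 2 β := by
  apply MemLp.of_bound (C := ‖mFourier m‖)
  · exact (mFourier m).continuous.aestronglyMeasurable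
  · exact Filter.Eventually.of_forall (fun x => ContinuousMap.norm_coe_le_norm _ _)

theorem st_E3 : ST_E3 := by
  classical
  intro n v β hβ δ hδ hgap K hK t R hKs
  -- vectors
  let e : (Fin n → ℤ) → Lp ℂ 2 β := fun m => (E3_mem n β (-m)).toLp
  have hinner : ∀ m m' : Fin n → ℤ, inner ℂ (e m) (e m') = ∫ x, mFourier (m - m') x ∂β := by
    intro m m'
    rw [L2.inner_def]
    apply integral_congr_ae
    filter_upwards [(E3_mem n β (-m)).coeFn_toLp, (E3_mem n β (-m')).coeFn_toLp] with x h1 h2
    simp only [e]
    rw [h1, h2, RCLike.inner_apply, ← mFourier_neg, neg_neg, ← mFourier_add]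
    congr 2
    abel
  let c : (Fin n → ℤ) → ℤ := fun m => ⌊v m / (δ / 2)⌋
  have hclass : ∀ m m', c m = c m' → |v (m - m')| < δ := by
    intro m m' h
    have h1 := Int.abs_sub_lt_one_of_floor_eq_floor h
    rw [← sub_div, abs_div, abs_of_pos (by positivity : (0:ℝ) < δ / 2), div_lt_one (by positivity)] at h1
    rw [map_sub]
    linarith
  have hon : ∀ k : ℤ, Orthonormal ℂ (fun m : {m // c m = k} => e m) := by
    intro k
    rw [orthonormal_iff_ite]
    rintro ⟨m, hm⟩ ⟨m', hm'⟩
    simp only [Subtype.mk.injEq]
    rw [hinner]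
    split_ifs with h
    · subst h
      simp [mFourier_zero]
    · apply hgap _ (sub_ne_zero.mpr h)
      exact hclass m m' (hm.trans hm'.symm)
  have hsum1 : ∀ k : ℤ, Summable (fun m : {m // c m = k} => K m • e m) := by
    intro k
    have h1 := (hon k).orthogonalFamily.summable_iff_norm_sq_summable
      (fun m : {m // c m = k} => K m)
    have h2 := h1.mpr (hK.subtype _)
    simpa using h2
  have hsum2 : ∀ k : ℤ, Summable (fun m => if c m = k then K m • e m else 0) := by
    intro k
    have h1 := (hsum1 k)
    have h2 : Summable ((fun m => K m • e m) ∘ ((↑) : {m | c m = k} → (Fin n → ℤ))) := h1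
    rw [summable_subtype_iff_indicator] at h2
    refine h2.congr ?_
    intro m
    rw [Set.indicator_apply]
    rfl
  -- finitely many classes
  let S : Finset ℤ := Finset.Icc ⌊(-t - R) / (δ / 2)⌋ ⌊(-t + R) / (δ / 2)⌋
  have hS : ∀ m, K m ≠ 0 → c m ∈ S := by
    intro m hm
    have h1 : |v m + t| ≤ R := by
      by_contra h
      exact hm (hKs m (not_le.mp h))
    rw [abs_le] at h1
    rw [Finset.mem_Icc]
    constructor
    · apply Int.floor_le_floor
      apply div_le_div_of_nonneg_right _ (by positivity)
      linarith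
    · apply Int.floor_le_floor
      apply div_le_div_of_nonneg_right _ (by positivity)
      linarith
  have hsum3 : Summable (fun m => K m • e m) := by
    have h1 : Summable (fun m => ∑ k ∈ S, if c m = k then K m • e m else 0) :=
      summable_sum (fun k _ => hsum2 k)
    refine h1.congr ?_
    intro m
    rw [Finset.sum_ite_eq]
    split_ifs with h
    · rfl
    · by_cases h0 : K m = 0
      · simp [h0]
      · exact absurd (hS m h0) h
  refine ⟨(∑' m, K m • e m : Lp ℂ 2 β), Lp.memLp _, ?_⟩
  intro h hh
  have hcb : MemLp (fun x => conj (h x)) 2 β := by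
    have := hh.star
    exact this
  have h1 := hsum3.hasSum.mapL (innerSL ℂ hcb.toLp)
  have h2 : (innerSL ℂ hcb.toLp) (∑' m, K m • e m : Lp ℂ 2 β) =
      ∫ x, (∑' m, K m • e m : Lp ℂ 2 β) x * h x ∂β := by
    rw [innerSL_apply_apply, L2.inner_def]
    apply integral_congr_ae
    filter_upwards [hcb.coeFn_toLp] with x hx
    rw [hx, RCLike.inner_apply, Complex.conj_conj]
  have h3 : ∀ m, (innerSL ℂ hcb.toLp) (K m • e m) = K m * ∫ x, mFourier (-m) x * h x ∂β := by
    intro m
    rw [map_smul, innerSL_apply_apply, L2.inner_def, smul_eq_mul]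
    congr 1
    apply integral_congr_ae
    filter_upwards [hcb.coeFn_toLp, (E3_mem n β (-m)).coeFn_toLp] with x hx hx2
    simp only [e]
    rw [hx, hx2, RCLike.inner_apply, Complex.conj_conj]
  rw [h2] at h1
  simp only [h3] at h1
  exact h1

end Pool.Agent.Helper97.FS
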